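import Pool.Agent.H165Z.Hop.Main

set_option autoImplicit false

namespace Pool.Agent.Results.MP_7edec4_co.ABoundedOnly

open Pool.Agent.H165Z.Hop

/-- A function `k` with `1 ≤ k(l) ≤ l` has property (P) if and only if it is bounded. -/
theorem result (k : ℕ → ℕ) (hk : ∀ l, 1 ≤ l → 1 ≤ k l ∧ k l ≤ l) :
    PropertyP k ↔ ∃ K, ∀ l, 1 ≤ l → k l ≤ K :=
  Pool.Agent.H165Z.Hop.main k hk

end Pool.Agent.Results.MP_7edec4_co.ABoundedOnly
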